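import Mathlib

/-!
# MP_a78613_co: hamiltonian regular bipartite graphs without cycles of many lengths

The graph is a ring of `k` blocks; every block is `K_{d,d}` without one edge (between its first and its
last vertex), and the last vertex of every block is joined to the first vertex of the next one.
It is `d`-regular, bipartite, hamiltonian, has `2 k d` vertices, and every cycle either stays in one
block (length at most `2 d`) or goes around the ring (length at least `4 k`).
-/

set_option autoImplicit false

namespace Pool.Agent.Results.MP_a78613_co.RingFamily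

open SimpleGraph

/-- Adjacency from `u` to `v`, inside a block. -/
def InB (k d : ℕ) (u v : Fin k × Fin (2 * d)) : Prop :=
  u.1 = v.1 ∧ (u.2.val + v.2.val) % 2 = 1 ∧ ¬ (u.2.val = 0 ∧ v.2.val = 2 * d - 1) ∧
    ¬ (u.2.val = 2 * d - 1 ∧ v.2.val = 0)

/-- The ring edge from `u` to `v`. -/
def Rg (k d : ℕ) (u v : Fin k × Fin (2 * d)) : Prop :=
  u.2.val = 2 * d - 1 ∧ v.2.val = 0 ∧
    (v.1.val = u.1.val + 1 ∨ (u.1.val + 1 = k ∧ v.1.val = 0))

/-- The ring of `k` blocks. -/
def ring (k d : ℕ) : SimpleGraph (Fin k × Fin (2 * d)) where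
  Adj u v := InB k d u v ∨ Rg k d u v ∨ Rg k d v u
  symm := ⟨by
    rintro u v (⟨h1, h2, h3, h4⟩ | h | h)
    · refine Or.inl ⟨h1.symm, by omega, fun h => h4 ⟨h.2, h.1⟩, fun h => h3 ⟨h.2, h.1⟩⟩
    · exact Or.inr (Or.inr h)
    · exact Or.inr (Or.inl h)⟩
  loopless := ⟨by
    rintro u (⟨h1, h2, -, -⟩ | ⟨h1, h2, -⟩ | ⟨h1, h2, -⟩)
    · omega
    · have := u.2.isLt
      omega
    · have := u.2.isLt
      omega⟩

theorem ring_adj {k d : ℕ} {u v : Fin k × Fin (2 * d)} :
    (ring k d).Adj u v ↔ InB k d u v ∨ Rg k d u v ∨ Rg k d v u := Iff.rfl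

theorem ring_parity {k d : ℕ} {u v : Fin k × Fin (2 * d)} (h : (ring k d).Adj u v) :
    (u.2.val + v.2.val) % 2 = 1 := by
  have hu := u.2.isLt
  rcases h with ⟨_, h, _, _⟩ | ⟨h1, h2, _⟩ | ⟨h1, h2, _⟩
  · exact h
  · omega
  · omega

theorem ring_colorable (k d : ℕ) : (ring k d).Colorable 2 := by
  refine ⟨Coloring.mk (fun v => (⟨v.2.val % 2, by omega⟩ : Fin 2)) ?_⟩
  intro u v h he
  have h1 := ring_parity h
  have h2 : u.2.val % 2 = v.2.val % 2 := congrArg Fin.val he
  omega

/-! ### the hamiltonian cycle -/

theorem step_adj {k d : ℕ} (hd : 2 ≤ d) (u v : Fin k × Fin (2 * d))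
    (h : (u.1 = v.1 ∧ v.2.val = u.2.val + 1) ∨ Rg k d u v) : (ring k d).Adj u v := by
  rcases h with ⟨h1, h2⟩ | h
  · refine Or.inl ⟨h1, by omega, by omega, by omega⟩
  · exact Or.inr (Or.inl h)

theorem ring_ham {k d : ℕ} (hd : 2 ≤ d) (hk : 1 ≤ k) :
    ∃ (v : Fin k × Fin (2 * d)) (c : (ring k d).Walk v v), c.IsHamiltonianCycle := by
  have hN : 4 ≤ k * (2 * d) := by nlinarith
  obtain ⟨n, hn⟩ : ∃ n, k * (2 * d) = n + 3 := ⟨k * (2 * d) - 3, by omega⟩
  let e : Fin (n + 3) ≃ Fin k × Fin (2 * d) := (finCongr hn).symm.trans finProdFinEquiv.symm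
  have e1 : ∀ u : Fin (n + 3), (e u).1.val = u.val / (2 * d) := fun u => rfl
  have e2 : ∀ u : Fin (n + 3), (e u).2.val = u.val % (2 * d) := fun u => rfl
  have hstep : ∀ u : Fin (n + 3), (ring k d).Adj (e u) (e (u + 1)) := by
    intro u
    apply step_adj hd
    have hdiv := Nat.div_add_mod u.val (2 * d)
    have hmod := Nat.mod_lt u.val (show 0 < 2 * d by omega)
    set q := u.val / (2 * d) with hq
    set p := u.val % (2 * d) with hp
    have hv := Fin.val_add_one u
    by_cases hl : u = Fin.last (n + 2)
    · rw [if_pos hl] at hv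
      right
      have hu : u.val = n + 2 := by rw [hl]; rfl
      have hqk : q + 1 = k ∧ p = 2 * d - 1 := by
        have h1 : u.val = 2 * d * (k - 1) + (2 * d - 1) := by
          obtain ⟨j, rfl⟩ : ∃ j, k = j + 1 := ⟨k - 1, by omega⟩
          have : (j + 1) * (2 * d) = 2 * d * j + 2 * d := by ring
          simp only [Nat.add_sub_cancel]
          omega
        have h2 : q = k - 1 := by
          rw [hq, h1]
          rw [Nat.mul_add_div (by omega), Nat.div_eq_of_lt (by omega)]
          omega
        have h3 : p = 2 * d - 1 := by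
          rw [hp, h1, Nat.mul_add_mod]
          exact Nat.mod_eq_of_lt (by omega)
        omega
      refine ⟨?_, ?_, Or.inr ⟨?_, ?_⟩⟩
      · rw [e2]; exact hqk.2
      · rw [e2, hv]; exact Nat.zero_mod _
      · rw [e1]; exact hqk.1
      · rw [e1, hv]; exact Nat.zero_div _
    · rw [if_neg hl] at hv
      by_cases hp1 : p + 1 < 2 * d
      · left
        constructor
        · apply Fin.ext
          rw [e1, e1, hv, ← hq]
          have : u.val + 1 = 2 * d * q + (p + 1) := by omega
          rw [this, Nat.mul_add_div (by omega), Nat.div_eq_of_lt hp1, add_zero]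
        · rw [e2, e2, hv, ← hp]
          have : u.val + 1 = 2 * d * q + (p + 1) := by omega
          rw [this, Nat.mul_add_mod, Nat.mod_eq_of_lt hp1]
      · right
        have : u.val + 1 = 2 * d * (q + 1) + 0 := by
          have : 2 * d * (q + 1) = 2 * d * q + 2 * d := by ring
          omega
        refine ⟨?_, ?_, Or.inl ?_⟩
        · rw [e2, ← hp]
          omega
        · rw [e2, hv, this, Nat.mul_add_mod]
          exact Nat.zero_mod _
        · rw [e1, e1, hv, this, Nat.mul_add_div (by omega), Nat.zero_div, add_zero]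
  let f : cycleGraph (n + 3) →g ring k d :=
    { toFun := e
      map_rel' := by
        intro a b hab
        rw [cycleGraph_adj] at hab
        rcases hab with h | h
        · have : a = b + 1 := by rw [← h, add_sub_cancel]
          rw [this]
          exact (hstep b).symm
        · have : b = a + 1 := by rw [← h, add_sub_cancel]
          rw [this]
          exact hstep a }
  refine ⟨_, (cycleGraph.cycle n).map f, ?_⟩
  refine Walk.IsHamiltonianCycle.map (f := f) e.bijective ?_
  rw [Walk.isHamiltonianCycle_iff_isCycle_and_length_eq]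
  exact ⟨cycleGraph.isCycle_cycle, by rw [cycleGraph.length_cycle]; simp⟩

/-! ### the degrees -/

theorem ring_neighbors {k d : ℕ} (hd : 2 ≤ d) (hk : 1 ≤ k) (v : Fin k × Fin (2 * d)) :
    ∃ g : Fin d → Fin k × Fin (2 * d), Function.Injective g ∧
      ∀ w, (ring k d).Adj v w ↔ ∃ j, g j = w := by
  obtain ⟨q, p⟩ := v
  have hq := q.isLt
  have hp := p.isLt
  by_cases h0 : p.val = 0
  · -- first vertex of a block
    let qp : Fin k := ⟨if q.val = 0 then k - 1 else q.val - 1, by split_ifs <;> omega⟩
    have hqp : qp.val = if q.val = 0 then k - 1 else q.val - 1 := rfl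
    let g : Fin d → Fin k × Fin (2 * d) := fun j =>
      if h : j.val = d - 1 then (qp, ⟨2 * d - 1, by omega⟩) else (q, ⟨2 * j.val + 1, by omega⟩)
    have g1 : ∀ j : Fin d, j.val = d - 1 → g j = (qp, ⟨2 * d - 1, by omega⟩) := fun j h => dif_pos h
    have g2 : ∀ (j : Fin d) (h : j.val ≠ d - 1), g j = (q, ⟨2 * j.val + 1, by omega⟩) :=
      fun j h => dif_neg h
    refine ⟨g, ?_, ?_⟩
    · intro i j hij
      have hi := i.isLt
      have hj := j.isLt
      have h2 := congrArg (fun x => x.2.val) hij
      apply Fin.ext
      by_cases a : i.val = d - 1 <;> by_cases b : j.val = d - 1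
      · omega
      · simp only [g1 i a, g2 j b] at h2
        omega
      · simp only [g2 i a, g1 j b] at h2
        omega
      · simp only [g2 i a, g2 j b] at h2
        omega
    · rintro ⟨q', p'⟩
      have hq' := q'.isLt
      have hp' := p'.isLt
      constructor
      · rintro (⟨h1, h2, h3, h4⟩ | ⟨h1, h2, h3⟩ | ⟨h1, h2, h3⟩)
        · simp only at h1 h2 h3 h4
          refine ⟨⟨p'.val / 2, by omega⟩, ?_⟩
          rw [g2 _ (by simp only; omega)]
          refine Prod.ext h1 (Fin.ext ?_)
          simp only
          omega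
        · simp only at h1
          omega
        · simp only at h1 h2 h3
          refine ⟨⟨d - 1, by omega⟩, ?_⟩
          rw [g1 _ rfl]
          refine Prod.ext (Fin.ext ?_) (Fin.ext ?_)
          · simp only [hqp]
            split_ifs <;> omega
          · simp only
            omega
      · rintro ⟨j, hj⟩
        have hj' := j.isLt
        by_cases a : j.val = d - 1
        · rw [g1 j a] at hj
          obtain ⟨e1, e2⟩ := Prod.mk.inj hj
          right; right
          refine ⟨?_, h0, ?_⟩
          · rw [← e2]
          · simp only [← e1, hqp]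
            split_ifs <;> omega
        · rw [g2 j a] at hj
          obtain ⟨e1, e2⟩ := Prod.mk.inj hj
          left
          have e3 : p'.val = 2 * j.val + 1 := by rw [← e2]
          refine ⟨e1, ?_, ?_, ?_⟩ <;> simp only <;> omega
  · by_cases h1 : p.val = 2 * d - 1
    · -- last vertex of a block
      let qp : Fin k := ⟨if q.val + 1 = k then 0 else q.val + 1, by split_ifs <;> omega⟩
      have hqp : qp.val = if q.val + 1 = k then 0 else q.val + 1 := rfl
      let g : Fin d → Fin k × Fin (2 * d) := fun j =>
        if h : j.val = 0 then (qp, ⟨0, by omega⟩) else (q, ⟨2 * j.val, by omega⟩)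
      have g1 : ∀ j : Fin d, j.val = 0 → g j = (qp, ⟨0, by omega⟩) := fun j h => dif_pos h
      have g2 : ∀ (j : Fin d) (h : j.val ≠ 0), g j = (q, ⟨2 * j.val, by omega⟩) :=
        fun j h => dif_neg h
      refine ⟨g, ?_, ?_⟩
      · intro i j hij
        have hi := i.isLt
        have hj := j.isLt
        have h2 := congrArg (fun x => x.2.val) hij
        apply Fin.ext
        by_cases a : i.val = 0 <;> by_cases b : j.val = 0
        · omega
        · simp only [g1 i a, g2 j b] at h2
          omega
        · simp only [g2 i a, g1 j b] at h2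
          omega
        · simp only [g2 i a, g2 j b] at h2
          omega
      · rintro ⟨q', p'⟩
        have hq' := q'.isLt
        have hp' := p'.isLt
        constructor
        · rintro (⟨h1, h2, h3, h4⟩ | ⟨h1, h2, h3⟩ | ⟨h1, h2, h3⟩)
          · simp only at h1 h2 h3 h4
            refine ⟨⟨p'.val / 2, by omega⟩, ?_⟩
            rw [g2 _ (by simp only; omega)]
            refine Prod.ext h1 (Fin.ext ?_)
            simp only
            omega
          · simp only at h1 h2 h3
            refine ⟨⟨0, by omega⟩, ?_⟩
            rw [g1 _ rfl]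
            refine Prod.ext (Fin.ext ?_) (Fin.ext ?_)
            · simp only [hqp]
              split_ifs <;> omega
            · simp only
              omega
          · simp only at h1 h2 h3
            omega
        · rintro ⟨j, hj⟩
          have hj' := j.isLt
          by_cases a : j.val = 0
          · rw [g1 j a] at hj
            obtain ⟨e1, e2⟩ := Prod.mk.inj hj
            right; left
            refine ⟨h1, ?_, ?_⟩
            · rw [← e2]
            · simp only [← e1, hqp]
              split_ifs <;> omega
          · rw [g2 j a] at hj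
            obtain ⟨e1, e2⟩ := Prod.mk.inj hj
            left
            have e3 : p'.val = 2 * j.val := by rw [← e2]
            refine ⟨e1, ?_, ?_, ?_⟩ <;> simp only <;> omega
    · -- inner vertex
      let g : Fin d → Fin k × Fin (2 * d) := fun j => (q, ⟨2 * j.val + (1 - p.val % 2), by omega⟩)
      refine ⟨g, ?_, ?_⟩
      · intro i j hij
        have h2 := congrArg (fun x => x.2.val) hij
        simp only [g] at h2
        apply Fin.ext
        omega
      · rintro ⟨q', p'⟩
        have hq' := q'.isLt
        have hp' := p'.isLt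
        constructor
        · rintro (⟨h1, h2, h3, h4⟩ | ⟨h1, h2, h3⟩ | ⟨h1, h2, h3⟩)
          · simp only at h1 h2 h3 h4
            refine ⟨⟨p'.val / 2, by omega⟩, ?_⟩
            refine Prod.ext h1 (Fin.ext ?_)
            simp only [g]
            omega
          · simp only at h1 h2 h3
            omega
          · simp only at h1 h2 h3
            omega
        · rintro ⟨j, hj⟩
          have hj' := j.isLt
          simp only [g] at hj
          obtain ⟨e1, e2⟩ := Prod.mk.inj hj
          left
          have e3 : p'.val = 2 * j.val + (1 - p.val % 2) := by rw [← e2]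
          refine ⟨e1, ?_, ?_, ?_⟩ <;> simp only <;> omega

/-! ### the cycles -/

/-- A walk which uses the edge `e` at most once: bound on the change of a potential. -/
theorem pot {V : Type} {G : SimpleGraph V} (φ : V → ℤ) (x y : V) (M : ℤ)
    (h1 : ∀ a b, G.Adj a b → s(a, b) ≠ s(x, y) → |φ b - φ a| ≤ 1)
    (h2 : M ≤ |φ y - φ x|) :
    ∀ {a b : V} (p : G.Walk a b), p.edges.Nodup →
      (s(x, y) ∉ p.edges → |φ b - φ a| ≤ p.length) ∧
      (s(x, y) ∈ p.edges → M + 1 - (p.length : ℤ) ≤ |φ b - φ a|) := by
  classical
  intro a b p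
  induction p with
  | nil => intro _; simp
  | @cons u v w h p ih =>
    intro hnd
    rw [Walk.edges_cons, List.nodup_cons] at hnd
    obtain ⟨ih1, ih2⟩ := ih hnd.2
    rw [Walk.edges_cons, Walk.length_cons]
    push_cast
    constructor
    · intro hn
      rw [List.mem_cons, not_or] at hn
      have := ih1 hn.2
      have h3 := h1 u v h (fun h => hn.1 h.symm)
      rw [abs_le] at *
      constructor <;> linarith [this.1, this.2, h3.1, h3.2]
    · intro hm
      by_cases he : s(x, y) = s(u, v)
      · have hnm : s(x, y) ∉ p.edges := by rw [he]; exact hnd.1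
        have h4 := ih1 hnm
        have h5 : |φ y - φ x| = |φ v - φ u| := by
          rcases Sym2.eq_iff.mp he with ⟨rfl, rfl⟩ | ⟨rfl, rfl⟩
          · rfl
          · exact abs_sub_comm _ _
        have h6 : |φ v - φ u| ≤ |φ w - φ u| + |φ w - φ v| := by
          have : φ v - φ u = (φ w - φ u) - (φ w - φ v) := by ring
          rw [this]
          exact abs_sub _ _
        linarith
      · have hm' : s(x, y) ∈ p.edges := by
          rcases List.mem_cons.mp hm with h | h
          · exact absurd h he
          · exact h
        have h4 := ih2 hm'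
        have h3 := h1 u v h (fun h => he h.symm)
        have h6 : |φ w - φ v| ≤ |φ w - φ u| + |φ v - φ u| := by
          have : φ w - φ v = (φ w - φ u) - (φ v - φ u) := by ring
          rw [this]
          exact abs_sub _ _
        linarith

/-- The index of a block relative to block `i + 1`. -/
def rel (k i q : ℕ) : ℤ := if i < q then (q : ℤ) - i - 1 else (q : ℤ) + k - 1 - i

/-- The place inside a block. -/
def place (d p : ℕ) : ℤ := if p = 0 then 0 else if p = 2 * d - 1 then 3 else if p % 2 = 1 then 1 else 2

/-- The potential. -/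
def phi (k d i : ℕ) (v : Fin k × Fin (2 * d)) : ℤ := 4 * rel k i v.1.val + place d v.2.val

theorem phi_inB {k d i : ℕ} (hd : 2 ≤ d) {u v : Fin k × Fin (2 * d)} (h : InB k d u v) :
    |phi k d i v - phi k d i u| ≤ 1 := by
  obtain ⟨h1, h2, h3, h4⟩ := h
  have hu := u.2.isLt
  have hv := v.2.isLt
  unfold phi place
  rw [h1, abs_le]
  constructor <;> split_ifs <;> omega

theorem phi_rg {k d i : ℕ} (hd : 2 ≤ d) {u v : Fin k × Fin (2 * d)} (h : Rg k d u v)
    (hne : u.1.val ≠ i) (hi : i < k) : |phi k d i v - phi k d i u| ≤ 1 := by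
  obtain ⟨h1, h2, h3⟩ := h
  have hu := u.1.isLt
  have hv := v.1.isLt
  have e1 : place d u.2.val = 3 := by
    unfold place
    rw [if_neg (by omega), if_pos h1]
  have e2 : place d v.2.val = 0 := by
    unfold place
    rw [if_pos h2]
  have e3 : rel k i v.1.val = rel k i u.1.val + 1 := by
    unfold rel
    split_ifs <;> omega
  unfold phi
  rw [e1, e2, e3, abs_le]
  constructor <;> omega

/-- A closed walk with distinct edges which uses a ring edge has length at least `4 k`. -/
theorem long_of_ring {k d : ℕ} (hd : 2 ≤ d) {x y : Fin k × Fin (2 * d)} (hxy : Rg k d x y)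
    {v : Fin k × Fin (2 * d)} (c : (ring k d).Walk v v) (hc : c.edges.Nodup)
    (hm : s(x, y) ∈ c.edges) : 4 * k ≤ c.length := by
  have hx := x.1.isLt
  have hy := y.1.isLt
  have huniq : ∀ a b : Fin k × Fin (2 * d), Rg k d a b → a.1.val = x.1.val → a = x ∧ b = y := by
    intro a b hab hax
    obtain ⟨a1, a2, a3⟩ := hab
    obtain ⟨b1, b2, b3⟩ := hxy
    have ha := a.1.isLt
    have hb := b.1.isLt
    exact ⟨Prod.ext (Fin.ext hax) (Fin.ext (by omega)),
      Prod.ext (Fin.ext (by omega)) (Fin.ext (by omega))⟩
  have h := (pot (G := ring k d) (phi k d x.1.val) x y (4 * k - 1) (by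
    intro a b hab hne
    rcases hab with h | h | h
    · exact phi_inB hd h
    · refine phi_rg hd h (fun h' => hne ?_) hx
      obtain ⟨e1, e2⟩ := huniq a b h h'
      rw [e1, e2]
    · rw [abs_sub_comm]
      refine phi_rg hd h (fun h' => hne ?_) hx
      obtain ⟨e1, e2⟩ := huniq b a h h'
      rw [e1, e2]
      exact Sym2.eq_swap) (by
    obtain ⟨b1, b2, b3⟩ := hxy
    have e1 : place d x.2.val = 3 := by
      unfold place
      rw [if_neg (by omega), if_pos b1]
    have e2 : place d y.2.val = 0 := by
      unfold place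
      rw [if_pos b2]
    have e3 : rel k x.1.val x.1.val = k - 1 := by
      unfold rel
      rw [if_neg (lt_irrefl _)]
      ring
    have e4 : rel k x.1.val y.1.val = 0 := by
      unfold rel
      split_ifs <;> omega
    have e5 : phi k d x.1.val y - phi k d x.1.val x = -(4 * (k : ℤ) - 1) := by
      unfold phi
      rw [e1, e2, e3, e4]
      ring
    rw [e5, abs_neg]
    exact le_abs_self _) c hc).2 hm
  simp only [sub_self, abs_zero] at h
  omega

/-- A walk without ring edges stays in its block. -/
theorem block_const {k d : ℕ} {a b : Fin k × Fin (2 * d)} (p : (ring k d).Walk a b)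
    (hp : ∀ x y, Rg k d x y → s(x, y) ∉ p.edges) : ∀ w ∈ p.support, w.1 = a.1 := by
  induction p with
  | nil => intro w hw; simp at hw; rw [hw]
  | @cons u v w h p ih =>
    intro z hz
    rw [Walk.support_cons, List.mem_cons] at hz
    rcases hz with rfl | hz
    · rfl
    · have h1 := ih (fun x y hxy hm =>
        hp x y hxy (by rw [Walk.edges_cons]; exact List.mem_cons_of_mem _ hm)) z hz
      have h' := h
      rw [ring_adj] at h'
      rcases h' with h2 | h2 | h2
      · rw [h1, h2.1]
      · exfalso
        apply hp u v h2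
        rw [Walk.edges_cons]
        exact List.mem_cons_self
      · exfalso
        apply hp v u h2
        rw [Walk.edges_cons, Sym2.eq_swap]
        exact List.mem_cons_self

theorem cycle_len {k d : ℕ} (hd : 2 ≤ d) {v : Fin k × Fin (2 * d)} (c : (ring k d).Walk v v)
    (hc : c.IsCycle) : c.length ≤ 2 * d ∨ 4 * k ≤ c.length := by
  by_cases hr : ∃ x y, Rg k d x y ∧ s(x, y) ∈ c.edges
  · obtain ⟨x, y, hxy, hm⟩ := hr
    exact Or.inr (long_of_ring hd hxy c hc.isTrail.edges_nodup hm)
  · left
    push Not at hr
    have h1 := block_const c hr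
    have hsub : c.support.tail.toFinset ⊆ (Finset.univ : Finset (Fin (2 * d))).image
        (fun p => (v.1, p)) := by
      intro w hw
      rw [List.mem_toFinset] at hw
      rw [Finset.mem_image]
      exact ⟨w.2, Finset.mem_univ _, Prod.ext (h1 w (List.mem_of_mem_tail hw)).symm rfl⟩
    have h2 := (Finset.card_le_card hsub).trans Finset.card_image_le
    rw [List.toFinset_card_of_nodup hc.support_nodup, List.length_tail, Walk.length_support,
      Finset.card_univ, Fintype.card_fin] at h2
    omega

/-- For all `d ≥ 2` and `k ≥ 1` there is a `d`-regular bipartite hamiltonian graph with `2 k d` vertices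
without a cycle of length `2 ℓ` for every `ℓ` with `d < ℓ < 2 k`. -/
theorem result (d k : ℕ) (hd : 2 ≤ d) (hk : 1 ≤ k) :
    ∃ (G : SimpleGraph (Fin k × Fin (2 * d))) (_ : DecidableRel G.Adj),
      G.IsRegularOfDegree d ∧
      G.Colorable 2 ∧
      (∃ (v : Fin k × Fin (2 * d)) (c : G.Walk v v), c.IsHamiltonianCycle) ∧
      ∀ ℓ : ℕ, d < ℓ → ℓ < 2 * k →
        ¬ ∃ (v : Fin k × Fin (2 * d)) (c : G.Walk v v), c.IsCycle ∧ c.length = 2 * ℓ := by
  classical
  refine ⟨ring k d, inferInstance, ?_, ring_colorable k d, ring_ham hd hk, ?_⟩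
  · intro v
    obtain ⟨g, hg, hadj⟩ := ring_neighbors hd hk v
    have h1 : (ring k d).neighborFinset v = Finset.univ.image g := by
      ext w
      rw [mem_neighborFinset, hadj, Finset.mem_image]
      simp
    rw [← card_neighborFinset_eq_degree, h1, Finset.card_image_of_injective _ hg,
      Finset.card_univ, Fintype.card_fin]
  · rintro ℓ h1 h2 ⟨v, c, hc, hl⟩
    rcases cycle_len hd c hc with h | h <;> omega

end Pool.Agent.Results.MP_a78613_co.RingFamily
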